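import Pool.Agent.Helper35.AG.Basic
import Pool.Agent.Helper88.AG.Sing
import Pool.Agent.Helper88.AG.Exp

/-
Trapping of popular differences, uniformly along a weakly convergent sequence.
-/

set_option autoImplicit false

open MeasureTheory Filter Topology Set Helper26.AG Helper35.AG Pool.Agent.Helper88.AG

namespace Helper75.AG

/-- weak limits of invariant measures are invariant -/
theorem inv_lim {μ : ProbabilityMeasure Tor} {ν : ℕ → ProbabilityMeasure Tor}
    (hν : Tendsto ν atTop (𝓝 μ)) (n : ℕ)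
    (hn : ∀ k, (ν k : Measure Tor).map (fun x => n • x) = ν k) :
    (μ : Measure Tor).map (fun x => n • x) = μ := by
  have hc : Continuous fun x : Tor => n • x := by fun_prop
  have h1 := ProbabilityMeasure.tendsto_map_of_tendsto_of_continuous ν μ hν hc
  have h2 : (fun k => (ν k).map (f := fun x : Tor => n • x) hc.measurable.aemeasurable) = ν := by
    funext k
    apply Subtype.ext
    exact hn k
  rw [h2] at h1
  have h3 := tendsto_nhds_unique h1 hν
  exact congrArg (fun m : ProbabilityMeasure Tor => (m : Measure Tor)) h3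

/-- the set of popular differences is finite -/
theorem pop_finite {μ : ProbabilityMeasure Tor}
    (h2 : (μ : Measure Tor).map (fun x => (2 : ℕ) • x) = μ)
    (h3 : (μ : Measure Tor).map (fun x => (3 : ℕ) • x) = μ) {h : ℝ}
    (hL : ¬ (ENNReal.ofReal h • volume ≤ (μ : Measure Tor))) :
    {t : Tor | Pop (μ : Measure Tor) h t 0}.Finite := by
  by_contra hinf
  have hcl : IsClosed {t : Tor | Pop (μ : Measure Tor) h t 0} := by
    rw [← isSeqClosed_iff_isClosed]
    intro t t0 ht hlim
    exact Pop.of_tendsto (l := atTop) (tendsto_const_nhds (x := μ)) (tendsto_const_nhds (x := h)) hlim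
      (tendsto_const_nhds (x := (0 : ℝ))) (Eventually.of_forall ht).frequently
  have hu := Helper17.Furst.furstenberg hcl (fun x hx => by simpa using Pop.smul 2 h2 hx)
    (fun x hx => by simpa using Pop.smul 3 h3 hx) hinf
  apply hL
  refine le_of_pop _ h2 h fun t => ?_
  have : t ∈ {t : Tor | Pop (μ : Measure Tor) h t 0} := by rw [hu]; trivial
  exact this

/-- **Trapping.** Along a weakly convergent sequence of invariant measures whose limit does not
dominate h times Lebesgue, the differences popular at scale r are within c r of a finite set. -/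
theorem trap2 {μ : ProbabilityMeasure Tor} {ν : ℕ → ProbabilityMeasure Tor}
    (hν : Tendsto ν atTop (𝓝 μ))
    (h2 : ∀ k, (ν k : Measure Tor).map (fun x => (2 : ℕ) • x) = ν k)
    (h3 : ∀ k, (ν k : Measure Tor).map (fun x => (3 : ℕ) • x) = ν k) {h : ℝ}
    (hL : ¬ (ENNReal.ofReal h • volume ≤ (μ : Measure Tor))) :
    ∃ F : Set Tor, F.Finite ∧ (∀ f ∈ F, (2 : ℕ) • f ∈ F) ∧ ∃ c : ℝ, 0 < c ∧ ∃ k0 : ℕ, ∀ k, k0 ≤ k → ∀ (t : Tor) (r : ℝ),
      0 < r → Pop (ν k : Measure Tor) h t r → ∃ f ∈ F, ‖t - f‖ ≤ c * r := by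
  have hμ2 := inv_lim hν 2 h2
  have hμ3 := inv_lim hν 3 h3
  set F : Set Tor := {t : Tor | Pop (μ : Measure Tor) h t 0} with hFdef
  have hF : F.Finite := pop_finite hμ2 hμ3 hL
  have hF2 : ∀ f ∈ F, (2 : ℕ) • f ∈ F := fun x hx => by
    have h' := Pop.smul 2 hμ2 hx
    rw [mul_zero] at h'
    exact h'
  obtain ⟨d, hd, hexp⟩ := expand F hF hF2
  have hex : ∃ n : ℕ, ∀ k, n ≤ k → ∀ t : Tor, Pop (ν k : Measure Tor) h t (1 / ((n : ℝ) + 1)) →
      ∃ f ∈ F, ‖t - f‖ ≤ d := by
    by_contra hcon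
    push Not at hcon
    choose k hk t ht hfar using hcon
    obtain ⟨t0, -, φ, hφ, hlim⟩ := isCompact_univ.tendsto_subseq (x := t) (fun n => mem_univ _)
    have hk' : Tendsto (fun n => k (φ n)) atTop atTop :=
      tendsto_atTop_mono (fun n => hk (φ n)) hφ.tendsto_atTop
    have hr0 : Tendsto (fun n => 1 / (((φ n : ℕ) : ℝ) + 1)) atTop (𝓝 0) :=
      tendsto_one_div_add_atTop_nhds_zero_nat.comp hφ.tendsto_atTop
    have hp0 : Pop (μ : Measure Tor) h t0 0 :=
      Pop.of_tendsto (hν.comp hk') (tendsto_const_nhds (x := h)) hlim hr0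
        (Eventually.of_forall fun n => ht (φ n)).frequently
    have hlim2 : Tendsto (fun n => ‖t (φ n) - t0‖) atTop (𝓝 0) := by
      rw [← tendsto_iff_norm_sub_tendsto_zero]
      exact hlim
    obtain ⟨n, hn⟩ := (hlim2.eventually_lt_const hd).exists
    have := hfar (φ n) t0 hp0
    linarith
  obtain ⟨n, hn⟩ := hex
  set e : ℝ := 1 / ((n : ℝ) + 1) with he
  have he0 : 0 < e := by positivity
  refine ⟨F, hF, hF2, max (2 * d / e) (1 / e), by positivity, n, fun k hk t r hr hp => ?_⟩
  by_cases hre : r ≤ e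
  · obtain ⟨f, hf, hle⟩ := hexp d le_rfl e he0 t r hr hre (fun i hi => by
      have h2i : (ν k : Measure Tor).map (fun x => (2 ^ i : ℕ) • x) = ν k := by
        clear hi
        induction i with
        | zero => simp
        | succ i ih =>
          have hc1 : Measurable fun x : Tor => (2 ^ i : ℕ) • x := by fun_prop
          have hc2 : Measurable fun x : Tor => (2 : ℕ) • x := by fun_prop
          have : (fun x : Tor => (2 ^ (i + 1) : ℕ) • x) =
              (fun x => (2 : ℕ) • x) ∘ fun x => (2 ^ i : ℕ) • x := by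
            funext x
            simp only [Function.comp_apply]
            rw [smul_smul, pow_succ, mul_comm]
          rw [this, ← Measure.map_map hc2 hc1, ih, h2 k]
      have := Pop.smul (2 ^ i) h2i hp
      push_cast at this
      have h4 := hn k hk _ (this.mono le_rfl hi)
      simpa using h4)
    refine ⟨f, hf, hle.trans ?_⟩
    gcongr
    exact le_max_left _ _
  · push Not at hre
    refine ⟨0, ?_, ?_⟩
    · exact Pop.zero hp.le_one le_rfl
    · have h5 : ‖t - 0‖ ≤ 1 := by
        rw [sub_zero]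
        refine (AddCircle.norm_le_half_period (p := (1 : ℝ)) one_ne_zero).trans ?_
        norm_num
      calc ‖t - 0‖ ≤ 1 := h5
        _ = 1 / e * e := by field_simp
        _ ≤ 1 / e * r := by gcongr
        _ ≤ max (2 * d / e) (1 / e) * r := by
          gcongr
          exact le_max_right _ _

/-- **Trapping.** Along a weakly convergent sequence of invariant measures whose limit does not
dominate h times Lebesgue, the differences popular at scale r are within c r of a finite set. -/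
theorem trap {μ : ProbabilityMeasure Tor} {ν : ℕ → ProbabilityMeasure Tor}
    (hν : Tendsto ν atTop (𝓝 μ))
    (h2 : ∀ k, (ν k : Measure Tor).map (fun x => (2 : ℕ) • x) = ν k)
    (h3 : ∀ k, (ν k : Measure Tor).map (fun x => (3 : ℕ) • x) = ν k) {h : ℝ}
    (hL : ¬ (ENNReal.ofReal h • volume ≤ (μ : Measure Tor))) :
    ∃ F : Set Tor, F.Finite ∧ ∃ c : ℝ, 0 < c ∧ ∃ k0 : ℕ, ∀ k, k0 ≤ k → ∀ (t : Tor) (r : ℝ),
      0 < r → Pop (ν k : Measure Tor) h t r → ∃ f ∈ F, ‖t - f‖ ≤ c * r := by
  obtain ⟨F, hF, -, c, hc, k0, H⟩ := trap2 hν h2 h3 hL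
  exact ⟨F, hF, c, hc, k0, H⟩

/-- weak limits of x2, x3-invariant measures are invariant -/
theorem Inv.lim {μ : ProbabilityMeasure Tor} {ν : ℕ → ProbabilityMeasure Tor}
    (hν : Tendsto ν atTop (𝓝 μ)) (hi : ∀ k, Inv (ν k : Measure Tor)) : Inv (μ : Measure Tor) where
  two := ⟨by fun_prop, inv_lim hν 2 fun k => (hi k).two.map_eq⟩
  three := ⟨by fun_prop, inv_lim hν 3 fun k => (hi k).three.map_eq⟩

/-- **Trapping**, finset form. -/
theorem trap' {μ : ProbabilityMeasure Tor} {ν : ℕ → ProbabilityMeasure Tor}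
    (hν : Tendsto ν atTop (𝓝 μ)) (hi : ∀ k, Inv (ν k : Measure Tor)) {h : ℝ}
    (hL : ¬ (ENNReal.ofReal h • volume ≤ (μ : Measure Tor))) :
    ∃ F : Finset Tor, F.Nonempty ∧ ∃ c : ℝ, 0 < c ∧ ∀ᶠ k in atTop, ∀ (t : Tor) (r : ℝ),
      0 < r → Pop (ν k : Measure Tor) h t r → ∃ f ∈ F, ‖t - f‖ ≤ c * r := by
  classical
  obtain ⟨F, hF, c, hc, k0, H⟩ := trap hν (fun k => (hi k).two.map_eq)
    (fun k => (hi k).three.map_eq) hL
  refine ⟨insert 0 hF.toFinset, ⟨0, by simp⟩, c, hc, eventually_atTop.2 ⟨k0, ?_⟩⟩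
  intro k hk t r hr hp
  obtain ⟨f, hf, h1⟩ := H k hk t r hr hp
  exact ⟨f, by simp [hf], h1⟩

/-- **Bounded popular differences at all scales**, for one measure. -/
theorem trap_one {μ : Measure Tor} [IsProbabilityMeasure μ] (hi : Inv μ) {h : ℝ}
    (hL : ¬ (ENNReal.ofReal h • volume ≤ μ)) :
    ∃ F : Finset Tor, F.Nonempty ∧ ∃ c : ℝ, 0 < c ∧ ∀ (t : Tor) (r : ℝ),
      0 < r → Pop μ h t r → ∃ f ∈ F, ‖t - f‖ ≤ c * r := by
  set m : ProbabilityMeasure Tor := ⟨μ, inferInstance⟩ with hm
  obtain ⟨F, hF, c, hc, H⟩ := trap' (μ := m) (ν := fun _ => m) tendsto_const_nhds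
    (fun _ => hi) hL
  obtain ⟨k, hk⟩ := H.exists
  exact ⟨F, hF, c, hc, hk⟩

/-- the popular differences of one measure form a finite set -/
theorem dich {μ : Measure Tor} [IsProbabilityMeasure μ] (hi : Inv μ) {h : ℝ}
    (hL : ¬ (ENNReal.ofReal h • volume ≤ μ)) : {t : Tor | Pop μ h t 0}.Finite :=
  pop_finite (μ := ⟨μ, inferInstance⟩) hi.two.map_eq hi.three.map_eq hL

/-- a closed ball of radius c r is covered by 2 ⌈c⌉ + 1 balls of radius r -/
theorem ball_cover {ν : Measure Tor} [IsFiniteMeasure ν] {c r a : ℝ} (hr : 0 < r)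
    (ha : 0 < a) (z : Tor) (h : a ≤ ν.real (Metric.closedBall z (c * r))) :
    ∃ x, a / (2 * ⌈c⌉₊ + 1) ≤ ν.real (Metric.closedBall x r) := by
  by_contra hcon
  push Not at hcon
  have hcov : Metric.closedBall z (c * r) ⊆
      ⋃ j ∈ Finset.range (2 * ⌈c⌉₊ + 1),
        Metric.closedBall (z + ((((j : ℝ) - ⌈c⌉₊) * r : ℝ) : Tor)) r := by
    intro x hx
    rw [Metric.mem_closedBall, dist_eq_norm] at hx
    obtain ⟨ξ, hξ, hξn⟩ := Helper17.Furst.exists_rep (x - z)
    rw [← hξn] at hx
    set j : ℤ := ⌊ξ / r⌋ with hj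
    have hj1 : (j : ℝ) ≤ ξ / r := Int.floor_le _
    have hj2 : ξ / r < j + 1 := Int.lt_floor_add_one _
    have hc1 : |ξ / r| ≤ c := by
      rw [abs_div, abs_of_pos hr, div_le_iff₀ hr]
      exact hx
    have hc2 : |ξ / r| ≤ ⌈c⌉₊ := hc1.trans (Nat.le_ceil c)
    have hb := abs_le.1 hc2
    have hj3 : -(⌈c⌉₊ : ℤ) ≤ j := by
      rw [hj]
      apply Int.le_floor.2
      push_cast
      exact hb.1
    have hj4 : j ≤ (⌈c⌉₊ : ℤ) := by
      have : (j : ℝ) ≤ ((⌈c⌉₊ : ℤ) : ℝ) := by
        push_cast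
        exact hj1.trans hb.2
      exact_mod_cast this
    rw [mem_iUnion₂]
    refine ⟨(j + ⌈c⌉₊).toNat, ?_, ?_⟩
    · rw [Finset.mem_range]
      omega
    · rw [Metric.mem_closedBall, dist_eq_norm]
      have e1 : (((j + ⌈c⌉₊).toNat : ℕ) : ℝ) - ⌈c⌉₊ = j := by
        have : (((j + ⌈c⌉₊).toNat : ℕ) : ℤ) = j + ⌈c⌉₊ := Int.toNat_of_nonneg (by omega)
        have h7 : ((((j + ⌈c⌉₊).toNat : ℕ) : ℤ) : ℝ) = ((j + ⌈c⌉₊ : ℤ) : ℝ) := by rw [this]
        push_cast at h7
        rw [h7]
        ring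
      rw [e1]
      have e2 : x - (z + (((j : ℝ) * r : ℝ) : Tor)) = ((ξ - j * r : ℝ) : Tor) := by
        rw [AddCircle.coe_sub, hξ]
        abel
      rw [e2]
      refine (Helper17.Furst.norm_coe_le _).trans ?_
      rw [abs_le]
      constructor
      · have : (j : ℝ) * r ≤ ξ := by
          rw [← le_div_iff₀ hr]
          exact hj1
        linarith
      · have : ξ < (j + 1) * r := by
          rw [← div_lt_iff₀ hr]
          exact hj2
        linarith
  have h1 : ν.real (Metric.closedBall z (c * r)) ≤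
      ∑ j ∈ Finset.range (2 * ⌈c⌉₊ + 1),
        ν.real (Metric.closedBall (z + ((((j : ℝ) - ⌈c⌉₊) * r : ℝ) : Tor)) r) :=
    (measureReal_mono hcov (measure_ne_top _ _)).trans (measureReal_biUnion_finset_le _ _)
  have h2 : ∑ j ∈ Finset.range (2 * ⌈c⌉₊ + 1),
        ν.real (Metric.closedBall (z + ((((j : ℝ) - ⌈c⌉₊) * r : ℝ) : Tor)) r) <
      ∑ j ∈ Finset.range (2 * ⌈c⌉₊ + 1), a / (2 * ⌈c⌉₊ + 1) := by
    apply Finset.sum_lt_sum_of_nonempty ⟨0, by simp⟩
    intro j _
    exact hcon _
  rw [Finset.sum_const, Finset.card_range, nsmul_eq_mul] at h2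
  push_cast at h2
  have h3 : (2 * (⌈c⌉₊ : ℝ) + 1) * (a / (2 * ⌈c⌉₊ + 1)) = a := by field_simp
  rw [h3] at h2
  linarith

/-- If the difference of two independent ν-points is within c r of a finite set F with
probability at least h, some ball of radius r has mass at least h / (|F| (2 ⌈c⌉ + 1)). -/
theorem ball_of_close {ν : Measure Tor} [IsProbabilityMeasure ν] {F : Set Tor} (hF : F.Finite)
    {c r h : ℝ} (hr : 0 < r) (hh : 0 < h)
    (hclose : h ≤ (ν.prod ν).real {z | ∃ f ∈ F, ‖z.1 - z.2 - f‖ ≤ c * r}) :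
    ∃ x, h / (F.ncard * (2 * ⌈c⌉₊ + 1)) ≤ ν.real (Metric.closedBall x r) := by
  set S : Set (Tor × Tor) := {z | ∃ f ∈ F, ‖z.1 - z.2 - f‖ ≤ c * r} with hS
  have hSm : MeasurableSet S := by
    have : S = ⋃ f ∈ F, {z : Tor × Tor | ‖z.1 - z.2 - f‖ ≤ c * r} := by
      ext z
      simp [hS]
    rw [this]
    refine hF.measurableSet_biUnion fun f _ => ?_
    apply measurableSet_le _ measurable_const
    fun_prop
  -- a point with a heavy section
  have hex : ∃ y, h ≤ ν.real (Prod.mk y ⁻¹' S) := by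
    by_contra hcon
    push Not at hcon
    have h1 : (ν.prod ν).real S = ∫ y, ν.real (Prod.mk y ⁻¹' S) ∂ν := by
      rw [measureReal_def, Measure.prod_apply hSm, integral_eq_lintegral_of_nonneg_ae]
      · congr 1
        refine lintegral_congr fun y => ?_
        rw [ofReal_measureReal]
      · exact Eventually.of_forall fun y => measureReal_nonneg
      · exact (measurable_measure_prodMk_left hSm).ennreal_toReal.aestronglyMeasurable
    have hint : Integrable (fun y => ν.real (Prod.mk y ⁻¹' S)) ν := by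
      refine Integrable.of_bound
        (measurable_measure_prodMk_left hSm).ennreal_toReal.aestronglyMeasurable 1 ?_
      refine Eventually.of_forall fun y => ?_
      change ‖ν.real (Prod.mk y ⁻¹' S)‖ ≤ 1
      rw [Real.norm_of_nonneg measureReal_nonneg]
      exact measureReal_le_one
    have h2 : ∫ y, ν.real (Prod.mk y ⁻¹' S) ∂ν < h := by
      have h3 : 0 < ∫ y, (h - ν.real (Prod.mk y ⁻¹' S)) ∂ν := by
        rw [integral_pos_iff_support_of_nonneg]
        · have : Function.support (fun y => h - ν.real (Prod.mk y ⁻¹' S)) = univ := by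
            ext y
            have := hcon y
            simp only [Function.mem_support, mem_univ, iff_true, ne_eq]
            linarith
          rw [this]
          simp
        · intro y
          have := hcon y
          simp only [Pi.zero_apply]
          linarith
        · exact (integrable_const h).sub hint
      rw [integral_sub (integrable_const h) hint] at h3
      simp at h3
      exact h3
    linarith
  obtain ⟨y, hy⟩ := hex
  have hFne : F.Nonempty := by
    by_contra hne
    rw [not_nonempty_iff_eq_empty] at hne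
    have : Prod.mk y ⁻¹' S = ∅ := by
      ext z
      simp [hS, hne]
    rw [this] at hy
    simp at hy
    linarith
  have hcard : 0 < F.ncard := (Set.ncard_pos hF).2 hFne
  -- a ball of radius c r
  have hex2 : ∃ f ∈ F, h / F.ncard ≤ ν.real (Metric.closedBall (y - f) (c * r)) := by
    by_contra hcon
    push Not at hcon
    have hsub : Prod.mk y ⁻¹' S ⊆ ⋃ f ∈ hF.toFinset, Metric.closedBall (y - f) (c * r) := by
      intro z hz
      obtain ⟨f, hf, hz⟩ := hz
      rw [mem_iUnion₂]
      refine ⟨f, by simpa using hf, ?_⟩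
      rw [Metric.mem_closedBall, dist_eq_norm]
      have : z - (y - f) = -(y - z - f) := by abel
      rw [this, norm_neg]
      exact hz
    have h1 := (measureReal_mono (μ := ν) hsub (measure_ne_top _ _)).trans (measureReal_biUnion_finset_le _ _)
    have h2 : ∑ f ∈ hF.toFinset, ν.real (Metric.closedBall (y - f) (c * r)) <
        ∑ f ∈ hF.toFinset, h / F.ncard := by
      apply Finset.sum_lt_sum_of_nonempty
      · simpa using hFne
      · intro f hf
        exact hcon f (by simpa using hf)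
    rw [Finset.sum_const, nsmul_eq_mul, ← Set.ncard_eq_toFinset_card F hF] at h2
    have h3 : (F.ncard : ℝ) * (h / F.ncard) = h := by
      have : (F.ncard : ℝ) ≠ 0 := by positivity
      field_simp
    rw [h3] at h2
    linarith
  obtain ⟨f, -, hf⟩ := hex2
  have hpos : 0 < h / F.ncard := by positivity
  obtain ⟨x, hx⟩ := ball_cover hr hpos (y - f) hf
  refine ⟨x, ?_⟩
  rwa [div_div] at hx

/-- the same with a measurable set of pairs all of whose differences are close to F -/
theorem ball_of_close' {ν : Measure Tor} [IsProbabilityMeasure ν] {F : Finset Tor}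
    {c r h : ℝ} (hr : 0 < r) (hh : 0 < h) {A : Set (Tor × Tor)}
    (hA : h ≤ (ν.prod ν).real A) (hclose : ∀ z ∈ A, ∃ f ∈ F, ‖z.1 - z.2 - f‖ ≤ c * r) :
    ∃ x, h / (F.card * (2 * ⌈c⌉₊ + 1)) ≤ ν.real (Metric.closedBall x r) := by
  have h1 := ball_of_close (ν := ν) (F := (F : Set Tor)) F.finite_toSet (c := c) hr hh
    (hA.trans (measureReal_mono (fun z hz => hclose z hz) (measure_ne_top _ _)))
  rwa [Set.ncard_coe_finset] at h1

/-- a point within 2^-K of x is in one of the four cells around x -/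
theorem idx_near {K : ℕ} {x z : Tor} (h : ‖z - x‖ ≤ 1 / 2 ^ K) :
    ∃ j ∈ Finset.range 4, idx K z = (idx K x + 2 ^ K - 1 + j) % 2 ^ K := by
  have h2 : (0 : ℝ) < 2 ^ K := by positivity
  have h2n : 0 < 2 ^ K := by positivity
  obtain ⟨ξ, hξ, hξn⟩ := Helper17.Furst.exists_rep (z - x)
  have hhalf : |ξ| ≤ 1 / 2 := by
    rw [hξn]
    refine (AddCircle.norm_le_half_period (p := (1 : ℝ)) one_ne_zero).trans ?_
    norm_num
  rw [← hξn, le_div_iff₀ h2] at h
  have hw : ∃ e ∈ Finset.range 3, idx K (z - x) = (2 ^ K - 1 + e) % 2 ^ K := by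
    by_cases h0 : 0 ≤ ξ
    · have hlt : ξ < 1 := by
        have := (abs_le.1 hhalf).2
        linarith
      rw [← hξ, idx_coe K h0 hlt]
      rw [abs_of_nonneg h0] at h
      have hfl : ⌊(2 : ℝ) ^ K * ξ⌋₊ ≤ 1 := by
        have h5 : ⌊(2 : ℝ) ^ K * ξ⌋₊ < 2 := by
          rw [Nat.floor_lt (by positivity)]
          push_cast
          nlinarith
        omega
      have hfl2 : ⌊(2 : ℝ) ^ K * ξ⌋₊ < 2 ^ K := by
        rw [Nat.floor_lt (by positivity)]
        push_cast
        nlinarith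
      refine ⟨⌊(2 : ℝ) ^ K * ξ⌋₊ + 1, by simp; omega, ?_⟩
      have : 2 ^ K - 1 + (⌊(2 : ℝ) ^ K * ξ⌋₊ + 1) = ⌊(2 : ℝ) ^ K * ξ⌋₊ + 2 ^ K := by omega
      rw [this, Nat.add_mod_right, Nat.mod_eq_of_lt hfl2]
    · push Not at h0
      have h1 : ((ξ + 1 : ℝ) : Tor) = z - x := by
        rw [AddCircle.coe_add, hξ]
        have : ((1 : ℝ) : Tor) = 0 := AddCircle.coe_period 1
        rw [this, add_zero]
      have hge := (abs_le.1 hhalf).1
      rw [← h1, idx_coe K (by linarith) (by linarith)]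
      rw [abs_of_neg h0] at h
      refine ⟨0, by simp, ?_⟩
      rw [add_zero, Nat.mod_eq_of_lt (by omega), Nat.floor_eq_iff (by nlinarith)]
      have h3 : ((2 ^ K - 1 : ℕ) : ℝ) = 2 ^ K - 1 := by
        rw [Nat.cast_sub (by omega)]
        push_cast
        ring
      rw [h3]
      constructor
      · nlinarith
      · nlinarith
  obtain ⟨e, he, hw⟩ := hw
  rw [Finset.mem_range] at he
  have hz : z = x + (z - x) := by abel
  have hmod : ∀ d : ℕ, (idx K x + (2 ^ K - 1 + e) % 2 ^ K + d) % 2 ^ K =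
      (idx K x + 2 ^ K - 1 + (e + d)) % 2 ^ K := by
    intro d
    rw [add_assoc, add_comm ((2 ^ K - 1 + e) % 2 ^ K) d, ← add_assoc, Nat.add_mod_mod]
    congr 1
    omega
  rcases idx_add K x (z - x) with h5 | h5
  · refine ⟨e, by simp; omega, ?_⟩
    rw [hz, h5, hw]
    have := hmod 0
    simpa using this
  · refine ⟨e + 1, by simp; omega, ?_⟩
    rw [hz, h5, hw]
    exact hmod 1

/-- a ball of radius 2^-K of mass a gives a cell of mass a / 4 -/
theorem cell_of_ball {ν : Measure Tor} [IsFiniteMeasure ν] {K : ℕ} {a : ℝ} (x : Tor)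
    (h : a ≤ ν.real (Metric.closedBall x (1 / 2 ^ K))) :
    ∃ i < 2 ^ K, a / 4 ≤ ν.real {z | idx K z = i} := by
  by_contra hcon
  push Not at hcon
  have h2n : 0 < 2 ^ K := by positivity
  have hsub : Metric.closedBall x (1 / 2 ^ K) ⊆
      ⋃ j ∈ Finset.range 4, {z | idx K z = (idx K x + 2 ^ K - 1 + j) % 2 ^ K} := by
    intro z hz
    rw [Metric.mem_closedBall, dist_eq_norm] at hz
    obtain ⟨j, hj, h1⟩ := idx_near hz
    rw [mem_iUnion₂]
    exact ⟨j, hj, h1⟩
  have h1 := (measureReal_mono (μ := ν) hsub (measure_ne_top _ _)).trans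
    (measureReal_biUnion_finset_le _ _)
  have h3 : ∑ j ∈ Finset.range 4, ν.real {z | idx K z = (idx K x + 2 ^ K - 1 + j) % 2 ^ K} <
      ∑ j ∈ Finset.range 4, a / 4 :=
    Finset.sum_lt_sum_of_nonempty ⟨0, by simp⟩ fun j _ => hcon _ (Nat.mod_lt _ h2n)
  rw [Finset.sum_const, Finset.card_range, nsmul_eq_mul] at h3
  push_cast at h3
  linarith

end Helper75.AG
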