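import Pool.Agent.Helper75.AG.Trap

/-
Uniform form: the popular differences of an invariant measure are near rationals of bounded
denominator, unless the measure is close to one which dominates h times Lebesgue.
-/

set_option autoImplicit false

open MeasureTheory Filter Topology Set Helper26.AG Helper35.AG Pool.Agent.Helper88.AG

namespace Helper75.AG

/-- Fourier coefficients are continuous for weak convergence -/
theorem tendsto_fourier {ι : Type*} {l : Filter ι} {ν : ι → ProbabilityMeasure Tor}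
    {μ : ProbabilityMeasure Tor} (h : Tendsto ν l (𝓝 μ)) (m : ℤ) :
    Tendsto (fun i => ∫ x, fourier m x ∂(ν i : Measure Tor)) l
      (𝓝 (∫ x, fourier m x ∂(μ : Measure Tor))) := by
  rw [ProbabilityMeasure.tendsto_iff_forall_integral_rclike_tendsto ℂ] at h
  exact h (BoundedContinuousFunction.mkOfCompact (fourier m))

/-- trapping, with torsion points of bounded order -/
theorem trap_tors {μ : ProbabilityMeasure Tor} {ν : ℕ → ProbabilityMeasure Tor}
    (hν : Tendsto ν atTop (𝓝 μ)) (hi : ∀ k, Inv (ν k : Measure Tor)) {h : ℝ}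
    (hL : ¬ (ENNReal.ofReal h • volume ≤ (μ : Measure Tor))) :
    ∃ N : ℕ, 1 ≤ N ∧ ∃ c : ℝ, 0 < c ∧ ∀ᶠ k in atTop, ∀ (t : Tor) (r : ℝ),
      0 < r → Pop (ν k : Measure Tor) h t r → ∃ f : Tor, N • f = 0 ∧ ‖t - f‖ ≤ c * r := by
  classical
  obtain ⟨F, hF, hF2, c, hc, k0, H⟩ := trap2 hν (fun k => (hi k).two.map_eq)
    (fun k => (hi k).three.map_eq) hL
  refine ⟨∏ f ∈ hF.toFinset, addOrderOf f, ?_, c, hc,
    eventually_atTop.2 ⟨k0, fun k hk t r hr hp => ?_⟩⟩
  · apply Nat.one_le_iff_ne_zero.2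
    rw [Finset.prod_ne_zero_iff]
    intro f hf
    exact order_of_finite hF hF2 (by simpa using hf)
  · obtain ⟨f, hf, h1⟩ := H k hk t r hr hp
    refine ⟨f, ?_, h1⟩
    rw [← addOrderOf_dvd_iff_nsmul_eq_zero]
    exact Finset.dvd_prod_of_mem _ (by simpa using hf)

/-- **Popular differences are near rationals of bounded denominator.** -/
theorem pop_unif (h ε : ℝ) (hε : 0 < ε) : ∃ N : ℕ, 1 ≤ N ∧ ∀ μ : Measure Tor,
    IsProbabilityMeasure μ → Inv μ →
    (∃ ρ : Measure Tor, IsProbabilityMeasure ρ ∧ Inv ρ ∧ ENNReal.ofReal h • volume ≤ ρ ∧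
      ∀ m : ℤ, |(m : ℝ)| ≤ 1 / ε → ‖∫ x, fourier m x ∂μ - ∫ x, fourier m x ∂ρ‖ < ε) ∨
    ∀ (t : Tor) (r : ℝ), 0 < r → Pop μ h t r → ∃ f : Tor, N • f = 0 ∧ ‖t - f‖ ≤ N * r := by
  by_contra hcon
  push Not at hcon
  have hN : ∀ n : ℕ, 1 ≤ (n + 1).factorial := fun n => Nat.one_le_iff_ne_zero.2
    (Nat.factorial_ne_zero _)
  choose μ hμp hμi h1 h2 using fun n : ℕ => hcon (n + 1).factorial (hN n)
  choose t r hr hp hfar using h2
  set M : ℕ → ProbabilityMeasure Tor := fun n => ⟨μ n, hμp n⟩ with hM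
  obtain ⟨μ0, -, φ, hφ, hlim⟩ := isCompact_univ.tendsto_subseq (x := M) (fun n => mem_univ _)
  have hinv : ∀ k, Inv ((M ∘ φ) k : Measure Tor) := fun k => hμi (φ k)
  by_cases hL : ENNReal.ofReal h • volume ≤ (μ0 : Measure Tor)
  · have hμ0 := Inv.lim hlim hinv
    have hev : ∀ᶠ k in atTop, ∀ m ∈ Finset.Icc (-⌊1 / ε⌋) ⌊1 / ε⌋,
        ‖∫ x, fourier m x ∂((M ∘ φ) k : Measure Tor) -
          ∫ x, fourier m x ∂(μ0 : Measure Tor)‖ < ε := by
      rw [eventually_all_finset]
      intro m _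
      have := tendsto_fourier hlim m
      rw [tendsto_iff_norm_sub_tendsto_zero] at this
      exact this.eventually_lt_const hε
    obtain ⟨k, hk⟩ := hev.exists
    obtain ⟨m, hm1, hm2⟩ := h1 (φ k) (μ0 : Measure Tor) inferInstance hμ0 hL
    have hm3 : m ∈ Finset.Icc (-⌊1 / ε⌋) ⌊1 / ε⌋ := by
      rw [Finset.mem_Icc]
      rw [abs_le] at hm1
      constructor
      · rw [neg_le]
        apply Int.le_floor.2
        push_cast
        linarith
      · apply Int.le_floor.2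
        exact hm1.2
    have := hk m hm3
    exact absurd this (not_lt.2 hm2)
  · obtain ⟨N, hN1, c, hc, hev⟩ := trap_tors hlim hinv hL
    have hbig : ∀ᶠ k in atTop, max N ⌈c⌉₊ ≤ φ k + 1 := by
      filter_upwards [hφ.tendsto_atTop.eventually_ge_atTop (max N ⌈c⌉₊)] with k hk
      omega
    obtain ⟨k, hk, hk2⟩ := (hev.and hbig).exists
    obtain ⟨f, hf, hf2⟩ := hk (t (φ k)) (r (φ k)) (hr (φ k)) (hp (φ k))
    have hle : N ≤ φ k + 1 := (le_max_left _ _).trans hk2
    have hle2 : c ≤ ((φ k + 1).factorial : ℝ) := by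
      have h3 : ⌈c⌉₊ ≤ (φ k + 1).factorial :=
        ((le_max_right _ _).trans hk2).trans (Nat.self_le_factorial _)
      exact (Nat.le_ceil c).trans (by exact_mod_cast h3)
    have hf3 : (φ k + 1).factorial • f = 0 := by
      obtain ⟨q, hq⟩ := Nat.dvd_factorial hN1 hle
      rw [hq, mul_comm, mul_smul, hf, smul_zero]
    have := hfar (φ k) f hf3
    have h4 : c * r (φ k) ≤ ((φ k + 1).factorial : ℝ) * r (φ k) :=
      mul_le_mul_of_nonneg_right hle2 (hr _).le
    linarith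

/-- if t is within N r of an N-torsion point for every r > 0, then t is an N-torsion point -/
theorem tors_of_near {N : ℕ} {t : Tor}
    (H : ∀ r : ℝ, 0 < r → ∃ f : Tor, N • f = 0 ∧ ‖t - f‖ ≤ N * r) : N • t = 0 := by
  rw [← norm_le_zero_iff]
  apply le_of_forall_pos_le_add
  intro e he
  obtain ⟨f, hf, h1⟩ := H (e / (N * N + 1)) (by positivity)
  have h2 : N • t = N • (t - f) := by rw [smul_sub, hf, sub_zero]
  rw [h2, zero_add]
  calc ‖N • (t - f)‖ ≤ N * ‖t - f‖ := Helper17.Furst.norm_nsmul_le' _ _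
    _ ≤ N * (N * (e / (N * N + 1))) := by gcongr
    _ = N * N / (N * N + 1) * e := by field_simp
    _ ≤ 1 * e := by
      gcongr
      rw [div_le_one (by positivity)]
      linarith
    _ = e := one_mul e

/-- **Popular differences of invariant measures are rationals of bounded denominator.** -/
theorem pop_unif_zero (h ε : ℝ) (hε : 0 < ε) : ∃ N : ℕ, 1 ≤ N ∧ ∀ μ : Measure Tor,
    IsProbabilityMeasure μ → Inv μ →
    (∃ ρ : Measure Tor, IsProbabilityMeasure ρ ∧ Inv ρ ∧ ENNReal.ofReal h • volume ≤ ρ ∧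
      ∀ m : ℤ, |(m : ℝ)| ≤ 1 / ε → ‖∫ x, fourier m x ∂μ - ∫ x, fourier m x ∂ρ‖ < ε) ∨
    ∀ t : Tor, Pop μ h t 0 → N • t = 0 := by
  obtain ⟨N, hN, H⟩ := pop_unif h ε hε
  refine ⟨N, hN, fun μ hp hi => ?_⟩
  rcases H μ hp hi with h1 | h1
  · exact Or.inl h1
  · exact Or.inr fun t ht => tors_of_near fun r hr => h1 t r hr (ht.mono le_rfl hr.le)

end Helper75.AG
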