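import Pool.Agent.Helper75.AG.Trap

/-
The critical radius: if all zooms of a spread measure are close to one coset of the m-torsion
points, then at the last scale with a heavy ball the neighbourhood of any finite set of centres
is light.
-/

set_option autoImplicit false

open MeasureTheory Filter Topology Set Helper26.AG Helper35.AG

namespace Helper75.AG

theorem norm_le_half (x : Tor) : ‖x‖ ≤ 1 / 2 := by
  refine (AddCircle.norm_le_half_period (p := (1 : ℝ)) one_ne_zero).trans ?_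
  norm_num

/-- a character moves a point away from 1 at least four times its distance -/
theorem four_norm_le (m : ℕ) (x : Tor) : 4 * ‖m • x‖ ≤ ‖fourier (m : ℤ) x - 1‖ := by
  obtain ⟨ξ, hξ, hn⟩ := Helper17.Furst.exists_rep (m • x)
  have h1 : fourier (m : ℤ) x = Complex.exp (Complex.I * ((2 * Real.pi * ξ : ℝ) : ℂ)) := by
    have h2 : fourier (m : ℤ) x = fourier (1 : ℤ) (m • x) := by
      rw [fourier_apply, fourier_apply, one_smul, natCast_zsmul]
    rw [h2, ← hξ, fourier_coe_apply]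
    congr 1
    push_cast
    ring
  rw [h1, Complex.norm_exp_I_mul_ofReal_sub_one, ← hn, Real.norm_eq_abs, abs_mul, abs_two]
  have h3 : |Real.sin (2 * Real.pi * ξ / 2)| = Real.sin (Real.pi * |ξ|) := by
    have h5 : |ξ| ≤ 1 / 2 := by rw [hn]; exact norm_le_half _
    have h6 : 0 ≤ Real.sin (Real.pi * |ξ|) := by
      apply Real.sin_nonneg_of_nonneg_of_le_pi (by positivity)
      have := Real.pi_pos
      nlinarith [abs_nonneg ξ]
    rcases abs_cases ξ with ⟨ha, -⟩ | ⟨ha, -⟩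
    · rw [ha] at h6 ⊢
      have : 2 * Real.pi * ξ / 2 = Real.pi * ξ := by ring
      rw [this, abs_of_nonneg h6]
    · rw [ha] at h6 ⊢
      have : 2 * Real.pi * ξ / 2 = -(Real.pi * -ξ) := by ring
      rw [this, Real.sin_neg, abs_neg, abs_of_nonneg h6]
  rw [h3]
  have h5 : |ξ| ≤ 1 / 2 := by rw [hn]; exact norm_le_half _
  have h4 := Real.mul_le_sin (x := Real.pi * |ξ|) (by positivity) (by
    have := Real.pi_pos
    nlinarith)
  have h7 : 2 / Real.pi * (Real.pi * |ξ|) = 2 * |ξ| := by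
    have := Real.pi_ne_zero
    field_simp
  rw [h7] at h4
  linarith

theorem close_mul {m : ℕ} {y y' : Tor} {w : ℂ} {κ : ℝ} (h : ‖fourier (m : ℤ) y - w‖ ≤ κ)
    (h' : ‖fourier (m : ℤ) y' - w‖ ≤ κ) : ‖m • (y - y')‖ ≤ κ / 2 := by
  have h1 := four_norm_le m (y - y')
  have h2 : ‖fourier (m : ℤ) (y - y') - 1‖ = ‖fourier (m : ℤ) y - fourier (m : ℤ) y'‖ := by
    have e1 : fourier (m : ℤ) y = fourier (m : ℤ) (y - y') * fourier (m : ℤ) y' := by
      have : y = (y - y') + y' := by abel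
      conv_lhs => rw [this]
      rw [fourier_apply, fourier_apply, fourier_apply, smul_add, AddCircle.toCircle_add]
      push_cast
      rfl
    rw [e1]
    have e2 : fourier (m : ℤ) (y - y') * fourier (m : ℤ) y' - fourier (m : ℤ) y' =
        (fourier (m : ℤ) (y - y') - 1) * fourier (m : ℤ) y' := by ring
    rw [e2, norm_mul]
    have e3 : ‖fourier (m : ℤ) y'‖ = 1 := by
      rw [fourier_apply]
      exact Circle.norm_coe _
    rw [e3, mul_one]
  have h3 : ‖fourier (m : ℤ) y - fourier (m : ℤ) y'‖ ≤ κ + κ := by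
    calc ‖fourier (m : ℤ) y - fourier (m : ℤ) y'‖
        = ‖(fourier (m : ℤ) y - w) - (fourier (m : ℤ) y' - w)‖ := by congr 1; ring
      _ ≤ ‖fourier (m : ℤ) y - w‖ + ‖fourier (m : ℤ) y' - w‖ := norm_sub_le _ _
      _ ≤ κ + κ := add_le_add h h'
  linarith

/-- the m-torsion point l / m -/
noncomputable def tor (m l : ℕ) : Tor := (((l : ℝ) / m : ℝ) : Tor)

/-- a point whose m-th multiple is small is close to an m-torsion point -/
theorem near_tor {m : ℕ} (hm : 1 ≤ m) {x : Tor} {ρ : ℝ} (h : ‖m • x‖ ≤ ρ) :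
    ∃ l ∈ Finset.range m, ‖x - tor m l‖ ≤ ρ := by
  have hm0 : (0 : ℝ) < m := by exact_mod_cast hm
  obtain ⟨ξ, hξ, hn⟩ := Helper17.Furst.exists_rep (m • x)
  obtain ⟨u, rfl⟩ := QuotientAddGroup.mk_surjective x
  have h1 : ((m * u - ξ : ℝ) : Tor) = 0 := by
    rw [AddCircle.coe_sub, hξ]
    have : ((m * u : ℝ) : Tor) = m • (u : Tor) := by
      rw [← AddCircle.coe_nsmul, nsmul_eq_mul]
    rw [this]
    exact sub_self _
  rw [AddCircle.coe_eq_zero_iff] at h1
  obtain ⟨k, hk⟩ := h1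
  have hk' : (k : ℝ) = m * u - ξ := by simpa using hk
  have hmi : (0 : ℤ) < m := by exact_mod_cast hm
  refine ⟨(k % m).toNat, ?_, ?_⟩
  · rw [Finset.mem_range]
    have h2 := Int.emod_lt_of_pos k hmi
    have h3 := Int.emod_nonneg k hmi.ne'
    omega
  · have h3 := Int.emod_nonneg k hmi.ne'
    have h4 : (((k % m).toNat : ℕ) : ℝ) = k - m * ((k / m : ℤ) : ℝ) := by
      have h5 : (((k % m).toNat : ℕ) : ℤ) = k - m * (k / m) := by
        rw [Int.toNat_of_nonneg h3]
        have := Int.emod_add_mul_ediv k m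
        linarith
      have h6 : ((((k % m).toNat : ℕ) : ℤ) : ℝ) = ((k - m * (k / m) : ℤ) : ℝ) := by rw [h5]
      push_cast at h6
      exact_mod_cast h6
    have h7 : ((u : ℝ) : Tor) - tor m (k % m).toNat = ((ξ / m : ℝ) : Tor) := by
      unfold tor
      rw [h4, ← AddCircle.coe_sub]
      have h8 : u - (k - m * ((k / m : ℤ) : ℝ)) / m = ξ / m + ((k / m : ℤ) : ℝ) := by
        rw [hk']
        field_simp
        ring
      rw [h8, AddCircle.coe_add]
      have h9 : ((((k / m : ℤ) : ℝ)) : Tor) = 0 := by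
        rw [AddCircle.coe_eq_zero_iff]
        exact ⟨k / m, by simp⟩
      rw [h9, add_zero]
    have h10 : ‖((ξ / m : ℝ) : Tor)‖ ≤ |ξ / m| := Helper17.Furst.norm_coe_le _
    change ‖((u : ℝ) : Tor) - tor m (k % m).toNat‖ ≤ ρ
    rw [h7]
    refine h10.trans ?_
    rw [abs_div, abs_of_pos hm0]
    refine le_trans ?_ h
    rw [← hn]
    apply div_le_self (abs_nonneg _)
    exact_mod_cast hm

/-- at most m points of a finite set are m-torsion points -/
theorem card_tor {m : ℕ} (hm : 1 ≤ m) (F : Finset Tor) :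
    (F.filter fun f => m • f = 0).card ≤ m := by
  classical
  have h : (F.filter fun f => m • f = 0) ⊆ (Finset.range m).image (tor m) := by
    intro f hf
    rw [Finset.mem_filter] at hf
    obtain ⟨l, hl, h1⟩ := near_tor hm (x := f) (ρ := 0) (by rw [hf.2]; simp)
    rw [Finset.mem_image]
    refine ⟨l, hl, ?_⟩
    have := norm_le_zero_iff.1 h1
    exact (sub_eq_zero.1 this).symm
  calc (F.filter fun f => m • f = 0).card ≤ ((Finset.range m).image (tor m)).card :=
        Finset.card_le_card h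
    _ ≤ (Finset.range m).card := Finset.card_image_le
    _ = m := Finset.card_range m

/-- zooming by 2^i recovers the distance of two points of a small ball -/
theorem zoom_dist {m i : ℕ} {x : Tor} {a : ℝ} (ha : ‖x‖ ≤ a) (hma : m * 2 ^ i * a ≤ 1 / 2)
    (hm : 1 ≤ m) : ‖x‖ ≤ ‖m • ((2 ^ i : ℕ) • x)‖ / 2 ^ i := by
  obtain ⟨ξ, hξ, hn⟩ := Helper17.Furst.exists_rep x
  have hm1 : (1 : ℝ) ≤ m := by exact_mod_cast hm
  have e1 : m • ((2 ^ i : ℕ) • x) = ((m * 2 ^ i * ξ : ℝ) : Tor) := by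
    rw [← hξ, smul_smul, ← AddCircle.coe_nsmul, nsmul_eq_mul]
    push_cast
    ring_nf
  have h1 : |(m : ℝ) * 2 ^ i * ξ| ≤ 1 / 2 := by
    rw [abs_mul, abs_of_nonneg (by positivity : (0 : ℝ) ≤ m * 2 ^ i), hn]
    refine le_trans ?_ hma
    gcongr
  rw [e1, (AddCircle.norm_coe_eq_abs_iff (p := (1 : ℝ)) one_ne_zero).2 (by simpa using h1), abs_mul,
    abs_of_nonneg (by positivity : (0 : ℝ) ≤ m * 2 ^ i), hn, le_div_iff₀ (by positivity)]
  calc ‖x‖ * 2 ^ i = 1 * (2 ^ i * ‖x‖) := by ring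
    _ ≤ m * (2 ^ i * ‖x‖) := by gcongr
    _ = m * 2 ^ i * ‖x‖ := by ring

/-- **The critical radius.** -/
theorem radii (m : ℕ) (hm : 1 ≤ m) (F : Finset Tor) (b : ℕ) :
    ∃ κ : ℝ, 0 < κ ∧ ∃ g : ℝ, 0 < g ∧ ∀ R : ℕ, ∃ η : ℝ, 0 < η ∧
      ∀ (ν : Measure Tor) [IsProbabilityMeasure ν] (K : ℕ),
      (∀ i : ℕ, i + R ≤ K → ∃ w : ℂ,
        ν.real {y | κ < ‖fourier (m : ℤ) ((2 ^ i : ℕ) • y) - w‖} ≤ g) →
      (∀ x, ν.real (Metric.closedBall x (1 / 2 ^ K)) ≤ η) →
      ∃ (z : Tor) (j : ℕ), j + R ≤ K ∧ b ≤ j ∧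
        1 / (8 * m) ≤ ν.real (Metric.closedBall z (1 / 2 ^ j)) ∧
        ν.real (⋃ f ∈ F, Metric.closedBall (z - f) (2 ^ b / 2 ^ j)) ≤ 1 / 4 := by
  classical
  have hm1 : (1 : ℝ) ≤ m := by exact_mod_cast hm
  have hm0 : (0 : ℝ) < m := by linarith
  -- the separation of the non torsion part of F
  obtain ⟨δ, hδ, hδF⟩ : ∃ δ : ℝ, 0 < δ ∧ ∀ f ∈ F, m • f ≠ 0 → δ ≤ ‖m • f‖ := by
    by_cases hne : (F.filter fun f => m • f ≠ 0).Nonempty
    · obtain ⟨f0, hf0, hmin⟩ := (F.filter fun f => m • f ≠ 0).exists_min_image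
        (fun f => ‖m • f‖) hne
      rw [Finset.mem_filter] at hf0
      refine ⟨‖m • f0‖, norm_pos_iff.2 hf0.2, fun f hf hf' => hmin f ?_⟩
      rw [Finset.mem_filter]
      exact ⟨hf, hf'⟩
    · refine ⟨1, one_pos, fun f hf hf' => (hne ⟨f, ?_⟩).elim⟩
      rw [Finset.mem_filter]
      exact ⟨hf, hf'⟩
  obtain ⟨c, hc⟩ : ∃ c : ℕ, (m : ℝ) ≤ 2 ^ c := by
    refine ⟨m, ?_⟩
    have : m < 2 ^ m := Nat.lt_two_pow_self
    exact_mod_cast this.le
  obtain ⟨J0, hJ0, hJ1, hJ2⟩ : ∃ J0 : ℕ, b + 2 + c ≤ J0 ∧ b ≤ J0 ∧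
      m * (1 + 2 ^ b) / 2 ^ J0 ≤ δ / 4 := by
    obtain ⟨n, hn⟩ := pow_unbounded_of_one_lt (m * (1 + 2 ^ b) / (δ / 4) : ℝ) one_lt_two
    refine ⟨max n (b + 2 + c), le_max_right _ _, by
      have := le_max_right n (b + 2 + c)
      omega, ?_⟩
    rw [div_le_iff₀ (by positivity)]
    rw [div_lt_iff₀ (by positivity)] at hn
    have h2 : (2 : ℝ) ^ n ≤ 2 ^ max n (b + 2 + c) :=
      pow_le_pow_right₀ one_le_two (le_max_left _ _)
    nlinarith
  set κ : ℝ := min (1 / 2 ^ (b + 2 + c)) (min (δ / 2) (1 / 2 ^ J0)) with hκ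
  have hκ0 : 0 < κ := by positivity
  have hκ1 : κ ≤ 1 / 2 ^ (b + 2 + c) := min_le_left _ _
  have hκ2 : κ ≤ δ / 2 := (min_le_right _ _).trans (min_le_left _ _)
  have hκ3 : κ ≤ 1 / 2 ^ J0 := (min_le_right _ _).trans (min_le_right _ _)
  set g : ℝ := min (1 / (16 * m)) (1 / (8 * (F.card + 1))) with hg
  have hg0 : 0 < g := by positivity
  have hg1 : g ≤ 1 / (16 * m) := min_le_left _ _
  have hg2 : g ≤ 1 / (8 * (F.card + 1)) := min_le_right _ _
  have hg3 : g ≤ 1 / 2 := by
    refine hg1.trans ?_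
    rw [div_le_div_iff₀ (by positivity) (by norm_num)]
    linarith
  have hθg : g < 1 / (8 * m) := by
    refine hg1.trans_lt ?_
    rw [div_lt_div_iff₀ (by positivity) (by positivity)]
    linarith
  refine ⟨κ, hκ0, g, hg0, fun R => ?_⟩
  refine ⟨1 / (8 * m) / (2 ^ (R + 1) + 2), by positivity, ?_⟩
  intro ν _ K hzoom hη
  set θ : ℝ := 1 / (8 * m) with hθ
  have hθ0 : 0 < θ := by positivity
  have hθ1 : θ ≤ 1 := by
    rw [hθ, div_le_one (by positivity)]
    linarith
  have hηlt : θ / (2 ^ (R + 1) + 2) < θ / (2 ^ (R + 1) + 1) := by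
    apply div_lt_div_of_pos_left hθ0 (by positivity)
    linarith
  -- heavy balls are much larger than the finest scale
  have hfine : ∀ (z : Tor) (j : ℕ), θ ≤ ν.real (Metric.closedBall z (1 / 2 ^ j)) →
      j + R ≤ K := by
    intro z j hz
    by_contra hcon
    push Not at hcon
    by_cases hjK : j ≤ K
    · have h1 : (1 : ℝ) / 2 ^ j = 2 ^ (K - j) * (1 / 2 ^ K) := by
        have h2 : (2 : ℝ) ^ K = 2 ^ (K - j) * 2 ^ j := by
          rw [← pow_add]
          congr 1
          omega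
        rw [h2]
        field_simp
      rw [h1] at hz
      obtain ⟨x, hx⟩ := ball_cover (c := 2 ^ (K - j)) (r := 1 / 2 ^ K) (by positivity) hθ0 z hz
      have h3 := hx.trans (hη x)
      have h4 : (⌈(2 : ℝ) ^ (K - j)⌉₊ : ℝ) = 2 ^ (K - j) := by
        have : ((2 ^ (K - j) : ℕ) : ℝ) = 2 ^ (K - j) := by push_cast; rfl
        rw [← this, Nat.ceil_natCast]
      rw [h4] at h3
      have h5 : (2 : ℝ) ^ (K - j) ≤ 2 ^ R := pow_le_pow_right₀ one_le_two (by omega)
      have h6 : θ / (2 ^ (R + 1) + 1) ≤ θ / (2 * 2 ^ (K - j) + 1) := by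
        apply div_le_div_of_nonneg_left hθ0.le (by positivity)
        rw [pow_succ]
        linarith
      linarith
    · push Not at hjK
      have h1 : Metric.closedBall z (1 / 2 ^ j) ⊆ Metric.closedBall z (1 / 2 ^ K) := by
        apply Metric.closedBall_subset_closedBall
        apply one_div_le_one_div_of_le (by positivity)
        exact pow_le_pow_right₀ one_le_two hjK.le
      have h2 := (hz.trans (measureReal_mono h1 (measure_ne_top _ _))).trans (hη z)
      have h3 : θ / (2 ^ (R + 1) + 2) < θ := by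
        apply div_lt_self hθ0
        have : (0 : ℝ) < 2 ^ (R + 1) := by positivity
        linarith
      linarith
  have hKR : 0 + R ≤ K := by
    refine hfine 0 0 ?_
    have h1 : Metric.closedBall (0 : Tor) (1 / 2 ^ 0) = univ := by
      rw [eq_univ_iff_forall]
      intro x
      rw [Metric.mem_closedBall, dist_zero_right]
      have := norm_le_half x
      norm_num
      linarith
    rw [h1]
    simpa using hθ1
  -- the coarse zoom
  obtain ⟨w, hw⟩ := hzoom 0 hKR
  simp only [pow_zero, one_smul] at hw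
  have hmeas : ∀ (i : ℕ) (w : ℂ),
      MeasurableSet {y : Tor | κ < ‖fourier (m : ℤ) ((2 ^ i : ℕ) • y) - w‖} := by
    intro i w
    apply measurableSet_lt measurable_const
    apply Continuous.measurable
    fun_prop
  have hcompl : ∀ (i : ℕ) (w : ℂ), ν.real {y | κ < ‖fourier (m : ℤ) ((2 ^ i : ℕ) • y) - w‖} ≤ g →
      ∀ B : Set Tor, g < ν.real B → ∃ y ∈ B, ‖fourier (m : ℤ) ((2 ^ i : ℕ) • y) - w‖ ≤ κ := by
    intro i w h B hB
    by_contra hcon
    push Not at hcon
    have : B ⊆ {y | κ < ‖fourier (m : ℤ) ((2 ^ i : ℕ) • y) - w‖} := fun y hy => hcon y hy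
    have := measureReal_mono (μ := ν) this (measure_ne_top _ _)
    linarith
  have hw0 : ∀ B : Set Tor, g < ν.real B → ∃ y ∈ B, ‖fourier (m : ℤ) y - w‖ ≤ κ := by
    intro B hB
    have := hcompl 0 w (by simpa using hw) B hB
    simpa using this
  have hP0 : ∃ z, θ ≤ ν.real (Metric.closedBall z (1 / 2 ^ J0)) := by
    obtain ⟨y0, -, hy0⟩ := hw0 univ (by simp; linarith)
    by_contra hcon
    push Not at hcon
    have hcov : (univ : Set Tor) ⊆ {y | κ < ‖fourier (m : ℤ) y - w‖} ∪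
        ⋃ l ∈ Finset.range m, Metric.closedBall (y0 + tor m l) (1 / 2 ^ J0) := by
      intro y _
      by_cases hy : κ < ‖fourier (m : ℤ) y - w‖
      · exact Or.inl hy
      · push Not at hy
        right
        obtain ⟨l, hl, hl2⟩ := near_tor hm (close_mul hy hy0)
        rw [mem_iUnion₂]
        refine ⟨l, hl, ?_⟩
        rw [Metric.mem_closedBall, dist_eq_norm]
        have : y - (y0 + tor m l) = y - y0 - tor m l := by abel
        rw [this]
        refine hl2.trans ?_
        linarith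
    have h1 := measureReal_mono (μ := ν) hcov (measure_ne_top _ _)
    have h2 : ν.real (⋃ l ∈ Finset.range m, Metric.closedBall (y0 + tor m l) (1 / 2 ^ J0)) ≤
        ∑ l ∈ Finset.range m, ν.real (Metric.closedBall (y0 + tor m l) (1 / 2 ^ J0)) :=
      measureReal_biUnion_finset_le _ _
    have h3 : ∑ l ∈ Finset.range m, ν.real (Metric.closedBall (y0 + tor m l) (1 / 2 ^ J0)) ≤
        ∑ l ∈ Finset.range m, θ := Finset.sum_le_sum fun l _ => (hcon _).le
    rw [Finset.sum_const, Finset.card_range, nsmul_eq_mul] at h3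
    have h4 : (m : ℝ) * θ = 1 / 8 := by
      rw [hθ]
      field_simp
    have h5 : ν.real (univ : Set Tor) = 1 := probReal_univ
    have h6 := measureReal_union_le (μ := ν) {y | κ < ‖fourier (m : ℤ) y - w‖}
      (⋃ l ∈ Finset.range m, Metric.closedBall (y0 + tor m l) (1 / 2 ^ J0))
    rw [h5] at h1
    linarith
  -- the last scale with a heavy ball
  obtain ⟨j, hj0, ⟨z, hz⟩, hmax⟩ : ∃ j, J0 ≤ j ∧
      (∃ z, θ ≤ ν.real (Metric.closedBall z (1 / 2 ^ j))) ∧
      ∀ z, ν.real (Metric.closedBall z (1 / 2 ^ (j + 1))) < θ := by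
    have hex : ∃ n, ¬ ∃ z, θ ≤ ν.real (Metric.closedBall z (1 / 2 ^ (J0 + n))) := by
      refine ⟨K + 1, ?_⟩
      rintro ⟨z, hz⟩
      have := hfine z _ hz
      omega
    obtain ⟨n0, h1, hmin⟩ : ∃ n0, (¬ ∃ z, θ ≤ ν.real (Metric.closedBall z (1 / 2 ^ (J0 + n0)))) ∧
        ∀ n < n0, ∃ z, θ ≤ ν.real (Metric.closedBall z (1 / 2 ^ (J0 + n))) :=
      ⟨Nat.find hex, Nat.find_spec hex, fun n hn => not_not.1 (Nat.find_min hex hn)⟩
    have h2 : n0 ≠ 0 := by
      rintro rfl
      exact h1 hP0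
    refine ⟨J0 + n0 - 1, by omega, ?_, ?_⟩
    · have := hmin (n0 - 1) (by omega)
      have e : J0 + (n0 - 1) = J0 + n0 - 1 := by omega
      rw [e] at this
      exact this
    · intro z
      have e : J0 + n0 - 1 + 1 = J0 + n0 := by omega
      rw [e]
      by_contra hcon
      push Not at hcon
      exact h1 ⟨z, hcon⟩
  have hjR : j + R ≤ K := hfine z j hz
  refine ⟨z, j, hjR, by omega, hz, ?_⟩
  have h2j : (0 : ℝ) < 2 ^ j := by positivity
  have h2b : (0 : ℝ) < 2 ^ b := by positivity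
  -- every ball of radius 2^(b-j) is light
  have hlight : ∀ z', ν.real (Metric.closedBall z' (2 ^ b / 2 ^ j)) ≤ θ + g := by
    intro z'
    by_contra hcon
    push Not at hcon
    obtain ⟨i, hi⟩ : ∃ i, i + (b + 2 + c) = j := ⟨j - (b + 2 + c), by omega⟩
    obtain ⟨w', hw'⟩ := hzoom i (by omega)
    obtain ⟨y0, hy0B, hy0⟩ := hcompl i w' hw' _ (lt_of_le_of_lt (by linarith : g ≤ θ + g) hcon)
    have hcov : Metric.closedBall z' (2 ^ b / 2 ^ j) ⊆
        {y | κ < ‖fourier (m : ℤ) ((2 ^ i : ℕ) • y) - w'‖} ∪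
          Metric.closedBall y0 (1 / 2 ^ (j + 1)) := by
      intro y hyB
      by_cases hy : κ < ‖fourier (m : ℤ) ((2 ^ i : ℕ) • y) - w'‖
      · exact Or.inl hy
      · push Not at hy
        right
        have h1 : ‖m • ((2 ^ i : ℕ) • (y - y0))‖ ≤ κ / 2 := by
          rw [smul_sub]
          exact close_mul hy hy0
        rw [Metric.mem_closedBall, dist_eq_norm] at hyB hy0B ⊢
        have h3 : ‖y - y0‖ ≤ 2 * (2 ^ b / 2 ^ j) := by
          calc ‖y - y0‖ = ‖(y - z') - (y0 - z')‖ := by congr 1; abel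
            _ ≤ ‖y - z'‖ + ‖y0 - z'‖ := norm_sub_le _ _
            _ ≤ 2 * (2 ^ b / 2 ^ j) := by linarith
        have hj' : (2 : ℝ) ^ j = 2 ^ i * (2 ^ b * 4 * 2 ^ c) := by
          rw [← hi, pow_add, pow_add, pow_add]
          norm_num
        have h4 : (m : ℝ) * 2 ^ i * (2 * (2 ^ b / 2 ^ j)) ≤ 1 / 2 := by
          have : (m : ℝ) * 2 ^ i * (2 * (2 ^ b / 2 ^ j)) = m / 2 ^ c * (1 / 2) := by
            rw [hj']
            field_simp
            ring
          rw [this]
          have h5 : (m : ℝ) / 2 ^ c ≤ 1 := by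
            rw [div_le_one (by positivity)]
            exact hc
          linarith
        have h5 := zoom_dist h3 h4 hm
        refine h5.trans ?_
        calc ‖m • ((2 ^ i : ℕ) • (y - y0))‖ / 2 ^ i ≤ (κ / 2) / 2 ^ i := by gcongr
          _ ≤ (1 / 2 ^ (b + 2 + c) / 2) / 2 ^ i := by gcongr
          _ = 1 / 2 ^ (j + 1) := by
            rw [pow_succ, hj', pow_add, pow_add]
            field_simp
            norm_num
    have h1 := measureReal_mono (μ := ν) hcov (measure_ne_top _ _)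
    have h6 := measureReal_union_le (μ := ν)
      {y | κ < ‖fourier (m : ℤ) ((2 ^ i : ℕ) • y) - w'‖} (Metric.closedBall y0 (1 / 2 ^ (j + 1)))
    have h7 := hmax y0
    linarith
  -- balls around non torsion translates are very light
  obtain ⟨y0, hy0B, hy0⟩ := hw0 _ (lt_of_lt_of_le hθg hz)
  have hvery : ∀ f ∈ F, m • f ≠ 0 → ν.real (Metric.closedBall (z - f) (2 ^ b / 2 ^ j)) ≤ g := by
    intro f hf hmf
    by_contra hcon
    push Not at hcon
    obtain ⟨y1, hy1B, hy1⟩ := hw0 _ hcon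
    have h1 := close_mul hy0 hy1
    rw [Metric.mem_closedBall, dist_eq_norm] at hy0B hy1B
    have h2 : m • f = m • (y0 - y1) - m • (y0 - z) + m • (y1 - (z - f)) := by
      rw [← smul_sub, ← smul_add]
      congr 1
      abel
    have h3 : ‖m • f‖ ≤ κ / 2 + m * (1 / 2 ^ j) + m * (2 ^ b / 2 ^ j) := by
      rw [h2]
      refine (norm_add_le _ _).trans ?_
      refine add_le_add ((norm_sub_le _ _).trans (add_le_add h1 ?_)) ?_
      · refine (Helper17.Furst.norm_nsmul_le' _ _).trans ?_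
        gcongr
      · refine (Helper17.Furst.norm_nsmul_le' _ _).trans ?_
        gcongr
    have h4 := hδF f hf hmf
    have h5 : (m : ℝ) * (1 / 2 ^ j) + m * (2 ^ b / 2 ^ j) = m * (1 + 2 ^ b) / 2 ^ j := by
      field_simp
    have h6 : (m : ℝ) * (1 + 2 ^ b) / 2 ^ j ≤ m * (1 + 2 ^ b) / 2 ^ J0 := by
      apply div_le_div_of_nonneg_left (by positivity) (by positivity)
      exact pow_le_pow_right₀ one_le_two hj0
    linarith
  -- sum up
  calc ν.real (⋃ f ∈ F, Metric.closedBall (z - f) (2 ^ b / 2 ^ j))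
      ≤ ∑ f ∈ F, ν.real (Metric.closedBall (z - f) (2 ^ b / 2 ^ j)) :=
        measureReal_biUnion_finset_le _ _
    _ ≤ ∑ f ∈ F, ((if m • f = 0 then θ else 0) + g) := by
        apply Finset.sum_le_sum
        intro f hf
        split_ifs with h
        · exact hlight _
        · rw [zero_add]
          exact hvery f hf h
    _ = (F.filter fun f => m • f = 0).card * θ + F.card * g := by
        rw [Finset.sum_add_distrib, ← Finset.sum_filter, Finset.sum_const, Finset.sum_const,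
          nsmul_eq_mul, nsmul_eq_mul]
    _ ≤ m * θ + (F.card + 1) * g := by
        have : ((F.filter fun f => m • f = 0).card : ℝ) ≤ m := by exact_mod_cast card_tor hm F
        gcongr
        linarith
    _ ≤ m * θ + (F.card + 1) * (1 / (8 * (F.card + 1))) := by gcongr
    _ = 1 / 4 := by
        rw [hθ]
        field_simp
        norm_num

end Helper75.AG
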