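import Pool.Agent.Helper35.AG.Basic
import Pool.Agent.Helper17.Furstenberg
import Pool.Agent.Helper88.AG.Exp

/-
Abstract trapping theorem: relations which are monotone in the radius, compatible with
multiplication by 2 and 3 and closed under limits are trapped near a finite set.
-/

set_option autoImplicit false

open MeasureTheory Filter Topology Set Helper35.AG

namespace Helper75.AG

/-- **Abstract trapping.** -/
theorem trap_abs {R : ℕ → Tor → ℝ → Prop} {R0 : Tor → Prop}
    (hmono : ∀ k t r r', r ≤ r' → R k t r → R k t r')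
    (h2 : ∀ k t r, R k t r → R k ((2 : ℕ) • t) (2 * r))
    (hlim : ∀ (k : ℕ → ℕ) (t : ℕ → Tor) (t0 : Tor) (r : ℕ → ℝ), Tendsto k atTop atTop →
      Tendsto t atTop (𝓝 t0) → Tendsto r atTop (𝓝 0) → (∀ n, 0 < r n) →
      (∀ n, R (k n) (t n) (r n)) → R0 t0)
    (hcl : IsClosed {t | R0 t}) (h02 : ∀ t, R0 t → R0 ((2 : ℕ) • t))
    (h03 : ∀ t, R0 t → R0 ((3 : ℕ) • t)) (hne : ∃ t, ¬ R0 t) :
    ∃ F : Finset Tor, F.Nonempty ∧ ∃ c : ℝ, 0 < c ∧ ∀ᶠ k in atTop, ∀ (t : Tor) (r : ℝ),
      0 < r → R k t r → ∃ f ∈ F, ‖t - f‖ ≤ c * r := by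
  classical
  set F : Set Tor := {t | R0 t} with hFdef
  have hF : F.Finite := by
    by_contra hinf
    have hu := Helper17.Furst.furstenberg hcl (fun x hx => h02 x hx) (fun x hx => h03 x hx) hinf
    obtain ⟨t, ht⟩ := hne
    apply ht
    have : t ∈ F := by rw [hu]; trivial
    exact this
  obtain ⟨d, hd, hexp⟩ := Pool.Agent.Helper88.AG.expand F hF (fun f hf => h02 f hf)
  have hex : ∃ n : ℕ, ∀ k, n ≤ k → ∀ t : Tor, R k t (1 / ((n : ℝ) + 1)) →
      ∃ f ∈ F, ‖t - f‖ ≤ d := by
    by_contra hcon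
    push Not at hcon
    choose k hk t ht hfar using hcon
    obtain ⟨t0, -, φ, hφ, hl⟩ := isCompact_univ.tendsto_subseq (x := t) (fun n => mem_univ _)
    have hk' : Tendsto (fun n => k (φ n)) atTop atTop :=
      tendsto_atTop_mono (fun n => hk (φ n)) hφ.tendsto_atTop
    have hr0 : Tendsto (fun n => 1 / (((φ n : ℕ) : ℝ) + 1)) atTop (𝓝 0) :=
      tendsto_one_div_add_atTop_nhds_zero_nat.comp hφ.tendsto_atTop
    have hp0 : R0 t0 := hlim _ _ t0 _ hk' hl hr0 (fun n => by positivity) fun n => ht (φ n)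
    have hlim2 : Tendsto (fun n => ‖t (φ n) - t0‖) atTop (𝓝 0) := by
      rw [← tendsto_iff_norm_sub_tendsto_zero]
      exact hl
    obtain ⟨n, hn⟩ := (hlim2.eventually_lt_const hd).exists
    have := hfar (φ n) t0 hp0
    linarith
  obtain ⟨n, hn⟩ := hex
  set e : ℝ := 1 / ((n : ℝ) + 1) with he
  have he0 : 0 < e := by positivity
  refine ⟨insert 0 hF.toFinset, ⟨0, by simp⟩, max (2 * d / e) (1 / e), by positivity,
    eventually_atTop.2 ⟨n, fun k hk t r hr hp => ?_⟩⟩
  by_cases hre : r ≤ e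
  · obtain ⟨f, hf, hle⟩ := hexp d le_rfl e he0 t r hr hre (fun i hi => by
      have hi' : ∀ i : ℕ, R k ((2 ^ i : ℕ) • t) (2 ^ i * r) := by
        intro i
        induction i with
        | zero => simpa using hp
        | succ i ih =>
          have := h2 k _ _ ih
          rw [smul_smul, ← pow_succ', ← mul_assoc, ← pow_succ'] at this
          exact this
      exact hn k hk _ (hmono k _ _ _ hi (hi' i)))
    refine ⟨f, by simp [hf], hle.trans ?_⟩
    gcongr
    exact le_max_left _ _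
  · push Not at hre
    refine ⟨0, by simp, ?_⟩
    have h5 : ‖t - 0‖ ≤ 1 := by
      rw [sub_zero]
      refine (AddCircle.norm_le_half_period (p := (1 : ℝ)) one_ne_zero).trans ?_
      norm_num
    calc ‖t - 0‖ ≤ 1 := h5
      _ = 1 / e * e := by field_simp
      _ ≤ 1 / e * r := by gcongr
      _ ≤ max (2 * d / e) (1 / e) * r := by
        gcongr
        exact le_max_right _ _

end Helper75.AG
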